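import Pool.Agent.PQP.StmtsC

/-! Squad PQP, row CPA: bounds before the limit (helper94). -/

set_option autoImplicit false

open scoped InnerProductSpace Topology ContDiff Manifold
open MeasureTheory Filter Set

noncomputable section

namespace Pool.Agent.PQP.H94

open Pool.Agent.Helper42_Paneitz Pool.Agent.Helper82_Vir Pool.Agent.FLX Pool.Agent.PQP

theorem meas_half (w : S4) (a : ℝ) : MeasurableSet {x : S4 | a ≤ ⟪(w : E5), (x : E5)⟫_ℝ} :=
  (isClosed_le continuous_const (continuous_const.inner continuous_subtype_val)).measurableSet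

/-- a hemisphere has at least half of the mass -/
theorem hemi (w : S4) : msig / 2 ≤ (sig {x : S4 | 0 ≤ ⟪(w : E5), (x : E5)⟫_ℝ}).toReal := by
  set H : Set S4 := {x : S4 | 0 ≤ ⟪(w : E5), (x : E5)⟫_ℝ} with hH
  have hm : MeasurableSet H := meas_half w 0
  have h1 := (measurePreserving_act (LinearIsometryEquiv.neg ℝ)).measure_preimage
    hm.nullMeasurableSet
  have h2 : (univ : Set S4) ⊆ H ∪ act (LinearIsometryEquiv.neg ℝ) ⁻¹' H := by
    intro x _
    rcases le_total 0 ⟪(w : E5), (x : E5)⟫_ℝ with h | h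
    · exact Or.inl h
    · refine Or.inr ?_
      show 0 ≤ ⟪(w : E5), ((act (LinearIsometryEquiv.neg ℝ) x : S4) : E5)⟫_ℝ
      rw [act_coe, LinearIsometryEquiv.coe_neg, inner_neg_right]
      linarith
  have h3 : sig univ ≤ sig H + sig H := by
    refine (measure_mono h2).trans ((measure_union_le _ _).trans ?_)
    rw [h1]
  have h4 : (sig univ).toReal ≤ (sig H + sig H).toReal :=
    ENNReal.toReal_mono (ENNReal.add_ne_top.2 ⟨measure_ne_top _ _, measure_ne_top _ _⟩) h3
  rw [ENNReal.toReal_add (measure_ne_top _ _) (measure_ne_top _ _)] at h4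
  unfold msig
  linarith

theorem ell_ge (x y : S4) : -Real.log 2 ≤ ell x y := by
  unfold ell
  rw [neg_le_neg_iff]
  rcases (sub_nonneg.2 (inner_le_one x y)).eq_or_lt with h | h
  · rw [← h, Real.log_zero]
    exact Real.log_nonneg (by norm_num)
  · apply Real.log_le_log h
    have := neg_one_le_inner x y
    linarith

theorem pot_ge (ker : KerStmt) {f : S4 → ℝ} (hf : Dens f) (x : S4) : -Real.log 2 ≤ pot f x := by
  obtain ⟨hc, hp, h1⟩ := hf
  have i1 : Integrable (fun y => ell x y * f y) sig := integrable_ell_mul (ker.1 x) hc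
  have i2 : Integrable (fun y => (-Real.log 2) * f y) sig := (integrable_cont hc).const_mul _
  have h2 : ∫ y, (-Real.log 2) * f y ∂sig ≤ ∫ y, ell x y * f y ∂sig :=
    integral_mono i2 i1 fun y => mul_le_mul_of_nonneg_right (ell_ge x y) (hp y).le
  rw [integral_const_mul, h1, mul_one] at h2
  exact h2

theorem cpa (bdj : BdjStmt) (ker : KerStmt) : CpaStmt := by
  intro u hu
  obtain ⟨C1, hC1, hB⟩ := bdj u hu
  have hm := msig_pos
  set Ca : ℝ := 64 / msig with hCa
  set Cb : ℝ := 12 / 7 * (msig + C1) with hCb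
  set Cc : ℝ := 9 / 4 * (64 / msig) ^ 2 * C1 with hCc
  have hCa0 : 0 < Ca := by positivity
  have hCb0 : 0 < Cb := by positivity
  have hCc0 : 0 < Cc := by positivity
  refine ⟨Ca + Cb + Cc, by positivity, ?_⟩
  intro w W f c ρ hSol hc hρ hρ2 hρu hmas hW
  obtain ⟨hD, A, hA, hfA⟩ := hSol
  obtain ⟨hpc, hint⟩ := hB f hD hmas
  obtain ⟨hfc, hfp, hf1⟩ := hD
  set B : ℝ := A * c with hBdef
  have hB0 : 0 < B := mul_pos hA hc
  have hfB : ∀ x, f x = B * (W x / c) * Real.exp (4 * pot f x) := by
    intro x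
    rw [hfA x, hBdef]
    field_simp
  set Ω : Set S4 := {x : S4 | -1 + ρ ≤ ⟪(w : E5), (x : E5)⟫_ℝ} with hΩ
  have hΩm : MeasurableSet Ω := meas_half w _
  have hlo : ∀ x ∈ Ω, B / 32 ≤ f x := by
    intro x hx
    have h1 := hW x hx
    rw [abs_le] at h1
    have h2 : 1 / 2 ≤ W x / c := by
      rw [le_div_iff₀ hc]
      linarith
    have h3 := pot_ge ker ⟨hfc, hfp, hf1⟩ x
    have h4 : (1 / 16 : ℝ) ≤ Real.exp (4 * pot f x) := by
      have h5 : Real.exp (4 * (-Real.log 2)) = 1 / 16 := by
        have h6 : Real.exp (-Real.log 2) = 1 / 2 := by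
          rw [Real.exp_neg, Real.exp_log (by norm_num)]
          norm_num
        have h7 : Real.exp (4 * (-Real.log 2)) = Real.exp (-Real.log 2) ^ 4 := by
          rw [← Real.exp_nat_mul]
          congr 1
        rw [h7, h6]
        norm_num
      rw [← h5]
      exact Real.exp_le_exp.2 (by linarith)
    rw [hfB x]
    calc B / 32 = B * (1 / 2) * (1 / 16) := by ring
      _ ≤ B * (W x / c) * Real.exp (4 * pot f x) := by
        apply mul_le_mul _ h4 (by norm_num) (by positivity)
        exact mul_le_mul_of_nonneg_left h2 hB0.le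
  have hup : ∀ x ∈ Ω, f x ≤ 3 / 2 * B * Real.exp (4 * pot f x) := by
    intro x hx
    have h1 := hW x hx
    rw [abs_le] at h1
    have h2 : W x / c ≤ 3 / 2 := by
      rw [div_le_iff₀ hc]
      linarith
    rw [hfB x]
    apply mul_le_mul_of_nonneg_right _ (Real.exp_pos _).le
    rw [mul_comm (3 / 2) B]
    exact mul_le_mul_of_nonneg_left h2 hB0.le
  have hfi : Integrable f sig := integrable_cont hfc
  have hexp8 : Integrable (fun x => Real.exp (8 * pot f x)) sig :=
    integrable_cont (Real.continuous_exp.comp (continuous_const.mul hpc))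
  -- upper bound of `B`
  have hBa : B ≤ Ca := by
    set H : Set S4 := {x : S4 | 0 ≤ ⟪(w : E5), (x : E5)⟫_ℝ} with hH
    have hHΩ : H ⊆ Ω := fun x hx => by
      have h0 : 0 ≤ ⟪(w : E5), (x : E5)⟫_ℝ := hx
      show -1 + ρ ≤ ⟪(w : E5), (x : E5)⟫_ℝ
      linarith
    have h1 : ∫ x in H, f x ∂sig ≤ 1 :=
      (setIntegral_le_integral hfi (Eventually.of_forall fun x => (hfp x).le)).trans hf1.le
    have h2 : ∫ _x in H, B / 32 ∂sig ≤ ∫ x in H, f x ∂sig :=
      setIntegral_mono_on (integrable_const _) hfi.integrableOn (meas_half w 0)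
        fun x hx => hlo x (hHΩ hx)
    rw [setIntegral_const, smul_eq_mul] at h2
    have h3 := hemi w
    have h4 : msig / 2 ≤ sig.real H := h3
    have h5 : msig / 2 * (B / 32) ≤ 1 := by
      have h6 : msig / 2 * (B / 32) ≤ sig.real H * (B / 32) :=
        mul_le_mul_of_nonneg_right h4 (by positivity)
      linarith
    rw [hCa, le_div_iff₀ hm]
    linarith
  -- lower bound of `B`
  have hBb : 1 / Cb ≤ B := by
    have h1 : ∫ x in Ωᶜ, f x ∂sig ≤ 1 / 8 := by
      have hneg : ‖-(w : E5)‖ = 1 := by rw [norm_neg, S4_norm]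
      let w' : S4 := ⟨-(w : E5), mem_sphere_zero_iff_norm.2 hneg⟩
      refine le_trans ?_ (hmas w')
      unfold mas
      apply setIntegral_mono_set hfi.integrableOn (Eventually.of_forall fun x => (hfp x).le)
      apply HasSubset.Subset.eventuallyLE
      intro x hx
      have h0 : ¬ (-1 + ρ ≤ ⟪(w : E5), (x : E5)⟫_ℝ) := hx
      show 1 - ⟪(-(w : E5)), (x : E5)⟫_ℝ ≤ u
      rw [inner_neg_left]
      linarith
    have h2 : ∫ x in Ω, f x ∂sig + ∫ x in Ωᶜ, f x ∂sig = 1 := by
      rw [integral_add_compl hΩm hfi, hf1]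
    have h3 : ∫ x in Ω, f x ∂sig ≤ 3 / 2 * B * (msig + C1) := by
      have e1 : ∀ x ∈ Ω, f x ≤ 3 / 2 * B * (1 + Real.exp (8 * pot f x)) := by
        intro x hx
        refine (hup x hx).trans (mul_le_mul_of_nonneg_left ?_ (by positivity))
        have e2 : Real.exp (8 * pot f x) = Real.exp (4 * pot f x) ^ 2 := by
          rw [← Real.exp_nat_mul]
          congr 1
          push_cast
          ring
        rw [e2]
        nlinarith [sq_nonneg (Real.exp (4 * pot f x) - 1 / 2)]
      have i1 : Integrable (fun x => 3 / 2 * B * (1 + Real.exp (8 * pot f x))) sig :=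
        ((integrable_const _).add hexp8).const_mul _
      have e3 : ∫ x in Ω, f x ∂sig ≤ ∫ x in Ω, 3 / 2 * B * (1 + Real.exp (8 * pot f x)) ∂sig :=
        setIntegral_mono_on hfi.integrableOn i1.integrableOn hΩm e1
      have e4 : ∫ x in Ω, 3 / 2 * B * (1 + Real.exp (8 * pot f x)) ∂sig ≤
          ∫ x, 3 / 2 * B * (1 + Real.exp (8 * pot f x)) ∂sig :=
        setIntegral_le_integral i1 (Eventually.of_forall fun x => by positivity)
      have e5 : ∫ x, 3 / 2 * B * (1 + Real.exp (8 * pot f x)) ∂sig =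
          3 / 2 * B * (msig + ∫ x, Real.exp (8 * pot f x) ∂sig) := by
        rw [integral_const_mul, integral_add (integrable_const _) hexp8, integral_const_sig,
          mul_one]
      have e6 : 3 / 2 * B * (msig + ∫ x, Real.exp (8 * pot f x) ∂sig) ≤
          3 / 2 * B * (msig + C1) := by
        apply mul_le_mul_of_nonneg_left _ (by positivity)
        linarith
      linarith
    have h4 : 7 / 8 ≤ 3 / 2 * B * (msig + C1) := by linarith
    rw [div_le_iff₀ hCb0, hCb]
    linarith
  refine ⟨B, ?_, ?_, hfB, ?_⟩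
  · refine le_trans ?_ hBb
    exact one_div_le_one_div_of_le hCb0 (by linarith)
  · linarith
  · have i2 : Integrable (fun x => 9 / 4 * B ^ 2 * Real.exp (8 * pot f x)) sig :=
      hexp8.const_mul _
    have h1 : ∫ x in Ω, f x ^ 2 ∂sig ≤ ∫ x in Ω, 9 / 4 * B ^ 2 * Real.exp (8 * pot f x) ∂sig := by
      refine setIntegral_mono_on (integrable_cont (hfc.fun_pow 2)).integrableOn i2.integrableOn hΩm
        fun x hx => ?_
      have e2 : Real.exp (8 * pot f x) = Real.exp (4 * pot f x) ^ 2 := by
        rw [← Real.exp_nat_mul]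
        congr 1
        push_cast
        ring
      have e3 := pow_le_pow_left₀ (hfp x).le (hup x hx) 2
      refine e3.trans (le_of_eq ?_)
      rw [e2]
      ring
    have h2 : ∫ x in Ω, 9 / 4 * B ^ 2 * Real.exp (8 * pot f x) ∂sig ≤
        ∫ x, 9 / 4 * B ^ 2 * Real.exp (8 * pot f x) ∂sig :=
      setIntegral_le_integral i2 (Eventually.of_forall fun x => by positivity)
    have h2' := h2.trans_eq (integral_const_mul (9 / 4 * B ^ 2) fun x => Real.exp (8 * pot f x))
    have h3 : B ^ 2 ≤ (64 / msig) ^ 2 := pow_le_pow_left₀ hB0.le hBa 2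
    have h4 : 9 / 4 * B ^ 2 * ∫ x, Real.exp (8 * pot f x) ∂sig ≤ Cc := by
      rw [hCc]
      apply mul_le_mul _ hint (integral_nonneg fun x => (Real.exp_pos _).le) (by positivity)
      linarith
    have h5 : ∫ x in Ω, f x ^ 2 ∂sig ≤ Cc := h1.trans (h2'.trans h4)
    linarith

end Pool.Agent.PQP.H94
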