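import Pool.Agent.PQP.StmtsN

/-! Squad PQP, row GRS: the gradient at the centre (helper94). -/

set_option autoImplicit false

open scoped InnerProductSpace Topology ContDiff Manifold
open MeasureTheory Filter Set

noncomputable section

namespace Pool.Agent.PQP.H94

open Pool.Agent.Helper42_Paneitz Pool.Agent.Helper82_Vir Pool.Agent.FLX Pool.Agent.PQP

theorem norm_sub_sq_S4 (x w : S4) :
    ‖(x : E5) - (w : E5)‖ ^ 2 = 2 * (1 - ⟪(w : E5), (x : E5)⟫_ℝ) := by
  rw [norm_sub_sq_real, S4_norm, S4_norm, real_inner_comm]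
  ring

theorem meas_cap (z : S4) (u : ℝ) : MeasurableSet (cap z u) :=
  (isClosed_le (continuous_const.sub (continuous_const.inner continuous_subtype_val))
    continuous_const).measurableSet

theorem grs (gra : GraStmt) : GrsStmt := by
  intro ψ hψ
  obtain ⟨C1, hC1, hgra⟩ := gra ψ hψ
  obtain ⟨L, hL0, hL⟩ := smV_lipschitz (smV_gd hψ)
  have h2 : 0 < √(2 : ℝ) := Real.sqrt_pos.2 (by norm_num)
  refine ⟨2 * √2 * L + √(8 * C1) + 1, by positivity, ?_⟩
  intro t v w f ht hv hSol hmas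
  have hst : 0 < √t := Real.sqrt_pos.2 ht
  set a : ℝ := ‖gd ψ w‖ with ha
  have ha0 : 0 ≤ a := norm_nonneg _
  have hsC : 0 ≤ √(8 * C1) := Real.sqrt_nonneg _
  rcases lt_or_ge (a * √t) (2 * √2 * L) with h | h
  · rw [le_div_iff₀ hst]
    linarith
  · have hg : ∀ x ∈ cap w v, a / 2 ≤ ‖gd ψ x‖ := by
      intro x hx
      have h3 : 1 - ⟪(w : E5), (x : E5)⟫_ℝ ≤ v := hx
      have h4 : ‖(x : E5) - (w : E5)‖ ^ 2 ≤ 2 * (1 / t) := by
        rw [norm_sub_sq_S4]
        linarith
      have h5 : ‖(x : E5) - (w : E5)‖ ≤ √2 / √t := by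
        rw [← Real.sqrt_div (by norm_num : (0 : ℝ) ≤ 2)]
        apply Real.le_sqrt_of_sq_le
        rw [← mul_one_div]
        exact h4
      have h6 : a - ‖gd ψ x‖ ≤ L * ‖(x : E5) - (w : E5)‖ := by
        have h7 := norm_sub_norm_le (gd ψ w) (gd ψ x)
        have h8 := hL x w
        rw [norm_sub_rev] at h8
        linarith
      have h7 : L * ‖(x : E5) - (w : E5)‖ ≤ L * (√2 / √t) := mul_le_mul_of_nonneg_left h5 hL0
      have h8 : L * (√2 / √t) ≤ a / 2 := by
        rw [← mul_div_assoc, div_le_iff₀ hst]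
        linarith
      linarith
    obtain ⟨hfc, hfp, hf1⟩ := hSol.1
    have hcV : Continuous fun x => ‖gd ψ x‖ ^ 2 * f x :=
      (((smV_gd hψ).continuous.norm).pow 2).mul hfc
    have h3 : ∫ x in cap w v, a ^ 2 / 4 * f x ∂sig ≤ ∫ x in cap w v, ‖gd ψ x‖ ^ 2 * f x ∂sig := by
      refine setIntegral_mono_on ((integrable_cont hfc).const_mul _).integrableOn
        (integrable_cont hcV).integrableOn (meas_cap w v) fun x hx => ?_
      apply mul_le_mul_of_nonneg_right _ (hfp x).le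
      have h4 := pow_le_pow_left₀ (by positivity) (hg x hx) 2
      calc a ^ 2 / 4 = (a / 2) ^ 2 := by ring
        _ ≤ _ := h4
    have h4 : ∫ x in cap w v, ‖gd ψ x‖ ^ 2 * f x ∂sig ≤ ∫ x, ‖gd ψ x‖ ^ 2 * f x ∂sig :=
      setIntegral_le_integral (integrable_cont hcV)
        (Eventually.of_forall fun x => mul_nonneg (sq_nonneg _) (hfp x).le)
    have h5 := hgra t f ht hSol
    have h3' : a ^ 2 / 4 * mas f w v ≤ ∫ x in cap w v, ‖gd ψ x‖ ^ 2 * f x ∂sig := by
      unfold mas
      rw [← integral_const_mul]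
      exact h3
    have h6 : a ^ 2 / 8 ≤ C1 / t := by
      have h7 : a ^ 2 / 4 * (1 / 2) ≤ a ^ 2 / 4 * mas f w v :=
        mul_le_mul_of_nonneg_left hmas (by positivity)
      linarith
    have h7 : (a * √t) ^ 2 ≤ 8 * C1 := by
      rw [mul_pow, Real.sq_sqrt ht.le]
      rw [le_div_iff₀ ht] at h6
      linarith
    have h8 : a * √t ≤ √(8 * C1) := Real.le_sqrt_of_sq_le h7
    rw [le_div_iff₀ hst]
    have h9 : 0 ≤ 2 * √2 * L := by positivity
    linarith

end Pool.Agent.PQP.H94
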